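import Pool.Agent.H74.AO.HStmts

/-!
Modules HCM, HCF and HBJ.
-/

set_option linter.unusedVariables false
set_option linter.unusedSectionVars false
set_option synthInstance.maxSize 100000

namespace AO

open SW MeasureTheory

/-- decomposition by a number -/
theorem hcm_dec {β : Type} [MeasurableSpace β] (f : β → ℕ)
    (hf : Measurable f) (P : ℕ → β → Prop) (h : ∀ n, MeasurableSet {x | P n x}) :
    MeasurableSet {x | P (f x) x} := by
  have h3 : {x | P (f x) x} = ⋃ n, (f ⁻¹' {n} ∩ {x | P n x}) := by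
    ext x
    simp
  rw [h3]
  exact MeasurableSet.iUnion fun n => (hf (MeasurableSet.singleton n)).inter (h n)

theorem hcm_srt (ι : Vx → ℝ) (hι : Measurable ι) (n : ℕ) :
    MeasurableSet {V : ℕ → Vx | Srt ι n V} := by
  have h3 : {V : ℕ → Vx | Srt ι n V} =
      (⋂ i : ℕ, ⋂ j : ℕ, ⋂ _ : i < j, ⋂ _ : j < n, {V : ℕ → Vx | ι (V i) < ι (V j)}) ∩
      ⋂ i : ℕ, ⋂ _ : n ≤ i, {V : ℕ → Vx | V i = (false, fun _ => false)} := by
    ext V
    simp [Srt]
  rw [h3]
  refine MeasurableSet.inter ?_ ?_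
  · refine MeasurableSet.iInter fun i => MeasurableSet.iInter fun j => MeasurableSet.iInter fun _ =>
      MeasurableSet.iInter fun _ => ?_
    exact measurableSet_lt (hι.comp (measurable_pi_apply i)) (hι.comp (measurable_pi_apply j))
  · exact MeasurableSet.iInter fun i => MeasurableSet.iInter fun _ =>
      measurableSet_eq_fun (measurable_pi_apply i) measurable_const

theorem ao_hcm (h1 : HMLStmt) (h2 : HSPStmt) : HCMStmt := by
  intro Z ι hZ hι hinj
  have h3 : {c : Cd | CCd ι Z c} = {c : Cd | (fun n c => (fun p c => Srt ι n c.2.2 ∧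
      el Z c.2.2 p ∈ GV Z (fv c.2.2 (Finset.range n)) ∧
      (∀ i, i < n → el Z c.2.2 p ∉ GV Z (fv c.2.2 ((Finset.range n).erase i))) ∧
      ∀ q, q < p → el Z c.2.2 q ≠ el Z c.2.2 p) c.2.1 c) c.1 c} := by
    ext c
    exact ⟨fun h => ⟨h.srt, h.mem, h.min, h.least⟩, fun h => ⟨h.1, h.2.1, h.2.2.1, h.2.2.2⟩⟩
  rw [h3]
  refine hcm_dec (fun c : Cd => c.1) measurable_fst (fun n c => (fun p c => Srt ι n c.2.2 ∧
      el Z c.2.2 p ∈ GV Z (fv c.2.2 (Finset.range n)) ∧
      (∀ i, i < n → el Z c.2.2 p ∉ GV Z (fv c.2.2 ((Finset.range n).erase i))) ∧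
      ∀ q, q < p → el Z c.2.2 q ≠ el Z c.2.2 p) c.2.1 c) fun n => ?_
  refine hcm_dec (fun c : Cd => c.2.1) (measurable_fst.comp measurable_snd)
    (fun p c => Srt ι n c.2.2 ∧
      el Z c.2.2 p ∈ GV Z (fv c.2.2 (Finset.range n)) ∧
      (∀ i, i < n → el Z c.2.2 p ∉ GV Z (fv c.2.2 ((Finset.range n).erase i))) ∧
      ∀ q, q < p → el Z c.2.2 q ≠ el Z c.2.2 p) fun p => ?_
  have hV : Measurable (fun c : Cd => c.2.2) := measurable_snd.comp measurable_snd
  have e1 : {c : Cd | Srt ι n c.2.2 ∧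
      el Z c.2.2 p ∈ GV Z (fv c.2.2 (Finset.range n)) ∧
      (∀ i, i < n → el Z c.2.2 p ∉ GV Z (fv c.2.2 ((Finset.range n).erase i))) ∧
      ∀ q, q < p → el Z c.2.2 q ≠ el Z c.2.2 p} =
      (fun c : Cd => c.2.2) ⁻¹' ({V | Srt ι n V} ∩ ({V | el Z V p ∈ GV Z (fv V (Finset.range n))} ∩
        ((⋂ i : ℕ, ⋂ _ : i < n, {V | el Z V p ∈ GV Z (fv V ((Finset.range n).erase i))}ᶜ) ∩
        (⋂ q : ℕ, ⋂ _ : q < p, ((fun V : ℕ → Vx => (V, V)) ⁻¹'
          {t : (ℕ → Vx) × (ℕ → Vx) | el Z t.1 q = el Z t.2 p})ᶜ)))) := by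
    ext c
    simp
  rw [e1]
  refine hV ((hcm_srt ι hι n).inter ((h2 Z hZ p _).inter (MeasurableSet.inter ?_ ?_)))
  · exact MeasurableSet.iInter fun i => MeasurableSet.iInter fun _ => (h2 Z hZ p _).compl
  · exact MeasurableSet.iInter fun q => MeasurableSet.iInter fun _ =>
      ((measurable_id.prodMk measurable_id) ((h1 Z hZ).1 q p)).compl

theorem ao_hcf (hmg : HMGStmt) (hcu : HCUStmt) (hcm : HCMStmt) (hml : HMLStmt) : HCFStmt := by
  intro Z ι hZ hι hinj
  choose F hF hF' using hcu Z ι hinj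
  refine ⟨fun t => F (el Z t.2 t.1), ?_, fun p V => hF (el Z V p)⟩
  refine hmg (ℕ × (ℕ → Vx)) Cd _ ?_
  have e1 : {t : (ℕ × (ℕ → Vx)) × Cd | t.2 = F (el Z t.1.2 t.1.1)} =
      (Prod.snd ⁻¹' {c : Cd | CCd ι Z c}) ∩ {t : (ℕ × (ℕ → Vx)) × Cd |
        (fun p t => (fun q t => el Z t.2.2.2 q = el Z t.1.2 p) t.2.2.1 t) t.1.1 t} := by
    ext t
    constructor
    · intro h
      have h' : t.2 = F (el Z t.1.2 t.1.1) := h
      have h2 := hF (el Z t.1.2 t.1.1)
      rw [← h'] at h2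
      exact h2
    · rintro ⟨h, h2⟩
      exact hF' (el Z t.1.2 t.1.1) t.2 ⟨h, h2⟩
  show MeasurableSet {t : (ℕ × (ℕ → Vx)) × Cd | t.2 = F (el Z t.1.2 t.1.1)}
  rw [e1]
  refine MeasurableSet.inter (measurable_snd (hcm Z ι hZ hι hinj)) ?_
  refine hcm_dec (fun t : (ℕ × (ℕ → Vx)) × Cd => t.1.1)
    (measurable_fst.comp measurable_fst)
    (fun p t => (fun q t => el Z t.2.2.2 q = el Z t.1.2 p) t.2.2.1 t) fun p => ?_
  refine hcm_dec (fun t : (ℕ × (ℕ → Vx)) × Cd => t.2.2.1)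
    (measurable_fst.comp (measurable_snd.comp measurable_snd))
    (fun q t => el Z t.2.2.2 q = el Z t.1.2 p) fun q => ?_
  exact ((measurable_snd.comp (measurable_snd.comp measurable_snd)).prodMk
    (measurable_snd.comp measurable_fst)) ((hml Z hZ).1 q p)

theorem ao_hbj (hcm : HCMStmt) (hcf : HCFStmt) (hgx : GXIStmt) (hpt : HPTStmt) : HBJStmt := by
  intro Z ι hZ hι hinj
  have : StandardBorelSpace {c : Cd // CCd ι Z c} := (hcm Z ι hZ hι hinj).standardBorel
  obtain ⟨f, hf, hf'⟩ := hcf Z ι hZ hι hinj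
  obtain ⟨n, hn⟩ := hpt.code [(Sum.inl (0, []), true)]
  have hel : ∀ X : Rl, el Z (fun _ => (false, X)) n = GX Z (false, X) [] := by
    intro X
    unfold el GX
    rw [hn]
    rfl
  have hunc : ¬ Countable {c : Cd // CCd ι Z c} := by
    intro hc
    have hi : Function.Injective (fun X : Rl =>
        (⟨f (n, fun _ => (false, X)), (hf' n _).1⟩ : {c : Cd // CCd ι Z c})) := by
      intro X Y hXY
      have h1 : f (n, fun _ => (false, X)) = f (n, fun _ => (false, Y)) :=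
        congrArg Subtype.val hXY
      have h2 := (hf' n (fun _ => (false, X))).2
      rw [h1, (hf' n (fun _ => (false, Y))).2, hel, hel] at h2
      have h3 := (hgx Z _ _ _ _ h2).1
      exact (congrArg Prod.snd h3).symm
    have h4 : Countable Rl := hi.countable
    obtain ⟨g, hg⟩ := h4.exists_injective_nat
    classical
    refine Function.cantor_injective (fun S : Set ℕ => g (fun n => decide (n ∈ S))) ?_
    intro S T hST
    have h5 := hg hST
    ext k
    have h6 := congrFun h5 k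
    simpa using h6
  have hR : ¬ Countable ℝ := not_countable_iff.2 inferInstance
  exact ⟨PolishSpace.measurableEquivOfNotCountable hR hunc⟩

end AO
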