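import Pool.Agent.H74.AO.HStmts

/-!
Modules HML and HSP.
-/

set_option linter.unusedVariables false
set_option linter.unusedSectionVars false
set_option synthInstance.maxSize 100000

namespace AO

open SW MeasureTheory

theorem hml_eq_iff (Z : Rl → Rl → Prop) (a b : FreeGroup Gn) :
    (QuotientGroup.mk a : Gr Z) = QuotientGroup.mk b ↔ a⁻¹ * b ∈ Tv Z :=
  QuotientGroup.eq

/-- interleaving -/
def hml_U2 (t : (ℕ → Vx) × (ℕ → Vx)) : ℕ → Vx := fun n =>
  if n % 2 = 0 then t.1 (n / 2) else t.2 (n / 2)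

theorem hml_U2_meas : Measurable hml_U2 := by
  refine measurable_pi_iff.2 fun n => ?_
  unfold hml_U2
  by_cases h : n % 2 = 0
  · simp only [h, if_true]
    exact (measurable_pi_apply _).comp measurable_fst
  · simp only [h, if_false]
    exact (measurable_pi_apply _).comp measurable_snd

/-- interleaving of three -/
def hml_U3 (t : (ℕ → Vx) × (ℕ → Vx) × (ℕ → Vx)) : ℕ → Vx := fun n =>
  if n % 3 = 0 then t.1 (n / 3) else if n % 3 = 1 then t.2.1 (n / 3) else t.2.2 (n / 3)

theorem hml_U3_meas : Measurable hml_U3 := by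
  refine measurable_pi_iff.2 fun n => ?_
  by_cases h : n % 3 = 0
  · have e : (fun t => hml_U3 t n) = fun t => t.1 (n / 3) := by
      funext t
      unfold hml_U3
      rw [if_pos h]
    rw [e]
    exact (measurable_pi_apply _).comp measurable_fst
  · by_cases h1 : n % 3 = 1
    · have e : (fun t => hml_U3 t n) = fun t => t.2.1 (n / 3) := by
        funext t
        unfold hml_U3
        rw [if_neg h, if_pos h1]
      rw [e]
      exact (measurable_pi_apply _).comp (measurable_fst.comp measurable_snd)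
    · have e : (fun t => hml_U3 t n) = fun t => t.2.2 (n / 3) := by
        funext t
        unfold hml_U3
        rw [if_neg h, if_neg h1]
      rw [e]
      exact (measurable_pi_apply _).comp (measurable_snd.comp measurable_snd)

theorem ao_hml (h1 : HWPStmt) (h2 : HPTStmt) : HMLStmt := by
  intro Z hZ
  refine ⟨fun p q => ?_, fun p q s => ?_⟩
  · obtain ⟨a, ha⟩ := h2.shift (fun i => 2 * i) (pdec p)
    obtain ⟨b, hb⟩ := h2.shift (fun i => 2 * i + 1) (pdec q)
    obtain ⟨a', ha'⟩ := h2.inv a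
    have h3 : {t : (ℕ → Vx) × (ℕ → Vx) | el Z t.1 p = el Z t.2 q} =
        hml_U2 ⁻¹' {V : ℕ → Vx | wp V (a' ++ b) ∈ Tv Z} := by
      ext t
      have e1 : (fun i => hml_U2 t (2 * i)) = t.1 := by
        funext i
        simp [hml_U2]
      have e2 : (fun i => hml_U2 t (2 * i + 1)) = t.2 := by
        funext i
        have : (2 * i + 1) % 2 = 1 := by omega
        have h' : (2 * i + 1) / 2 = i := by omega
        simp [hml_U2, this, h']
      show el Z t.1 p = el Z t.2 q ↔ wp (hml_U2 t) (a' ++ b) ∈ Tv Z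
      rw [h2.cat, ha', ha, hb, e1, e2]
      exact hml_eq_iff Z _ _
    rw [h3]
    exact hml_U2_meas (h1 Z hZ _)
  · obtain ⟨a, ha⟩ := h2.shift (fun i => 3 * i) (pdec p)
    obtain ⟨b, hb⟩ := h2.shift (fun i => 3 * i + 1) (pdec q)
    obtain ⟨c, hc⟩ := h2.shift (fun i => 3 * i + 2) (pdec s)
    obtain ⟨a', ha'⟩ := h2.inv (a ++ b)
    have h3 : {t : (ℕ → Vx) × (ℕ → Vx) × (ℕ → Vx) | el Z t.1 p * el Z t.2.1 q = el Z t.2.2 s} =
        hml_U3 ⁻¹' {V : ℕ → Vx | wp V (a' ++ c) ∈ Tv Z} := by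
      ext t
      have e1 : (fun i => hml_U3 t (3 * i)) = t.1 := by
        funext i
        simp [hml_U3]
      have e2 : (fun i => hml_U3 t (3 * i + 1)) = t.2.1 := by
        funext i
        have : (3 * i + 1) % 3 = 1 := by omega
        have h' : (3 * i + 1) / 3 = i := by omega
        simp [hml_U3, this, h']
      have e3 : (fun i => hml_U3 t (3 * i + 2)) = t.2.2 := by
        funext i
        have : (3 * i + 2) % 3 = 2 := by omega
        have h' : (3 * i + 2) / 3 = i := by omega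
        simp [hml_U3, this, h']
      show el Z t.1 p * el Z t.2.1 q = el Z t.2.2 s ↔ wp (hml_U3 t) (a' ++ c) ∈ Tv Z
      rw [h2.cat, ha', h2.cat, ha, hb, hc, e1, e2, e3]
      exact hml_eq_iff Z _ _
    rw [h3]
    exact hml_U3_meas (h1 Z hZ _)

theorem hsp_fv (J : Finset ℕ) (f : (ℕ → Vx) → Vx) (hf : Measurable f) :
    MeasurableSet {V : ℕ → Vx | f V ∈ fv V J} := by
  have h3 : {V : ℕ → Vx | f V ∈ fv V J} = ⋃ j ∈ J, {V : ℕ → Vx | f V = V j} := by
    ext V
    simp [fv]
  rw [h3]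
  exact Finset.measurableSet_biUnion _ fun j _ => measurableSet_eq_fun hf (measurable_pi_apply j)

theorem hsp_si (J : Finset ℕ) (p : Pat) : MeasurableSet {V : ℕ → Vx | SI V (fv V J) p} := by
  have h3 : {V : ℕ → Vx | SI V (fv V J) p} =
      (⋂ i : ℕ, ⋂ s : Str, ⋂ b : Bool, ⋂ _ : (Sum.inl (i, s), b) ∈ p,
        {V : ℕ → Vx | V i ∈ fv V J}) ∩
      ⋂ i : ℕ, ⋂ j : ℕ, ⋂ n : ℕ, ⋂ b : Bool, ⋂ _ : (Sum.inr (i, j, n), b) ∈ p,
        ({V : ℕ → Vx | (false, (V i).2) ∈ fv V J} ∩ {V : ℕ → Vx | (true, (V j).2) ∈ fv V J}) := by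
    ext V
    simp [SI]
  rw [h3]
  refine MeasurableSet.inter ?_ ?_
  · refine MeasurableSet.iInter fun i => MeasurableSet.iInter fun s => MeasurableSet.iInter fun b =>
      MeasurableSet.iInter fun _ => hsp_fv J _ (measurable_pi_apply i)
  · refine MeasurableSet.iInter fun i => MeasurableSet.iInter fun j => MeasurableSet.iInter fun n =>
      MeasurableSet.iInter fun b => MeasurableSet.iInter fun _ => ?_
    refine MeasurableSet.inter ?_ ?_
    · exact hsp_fv J _ (measurable_const.prodMk (measurable_snd.comp (measurable_pi_apply i)))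
    · exact hsp_fv J _ (measurable_const.prodMk (measurable_snd.comp (measurable_pi_apply j)))

theorem ao_hsp (h1 : HMLStmt) (h2 : HPTStmt) : HSPStmt := by
  intro Z hZ p J
  have h3 : {V : ℕ → Vx | el Z V p ∈ GV Z (fv V J)} =
      ⋃ n : ℕ, ({V : ℕ → Vx | SI V (fv V J) (pdec n)} ∩
        (fun V : ℕ → Vx => (V, V)) ⁻¹' {t : (ℕ → Vx) × (ℕ → Vx) | el Z t.1 n = el Z t.2 p}) := by
    ext V
    simp only [Set.mem_ofPred_eq, Set.mem_iUnion, Set.mem_inter_iff, Set.mem_preimage]
    constructor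
    · intro h
      obtain ⟨n, hn, hn'⟩ := h2.sur Z V J _ h
      exact ⟨n, hn, hn'⟩
    · rintro ⟨n, hn, hn'⟩
      rw [← hn']
      exact h2.si Z V _ _ hn
  rw [h3]
  refine MeasurableSet.iUnion fun n => (hsp_si J _).inter ?_
  exact (measurable_id.prodMk measurable_id) ((h1 Z hZ).1 n p)

end AO
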