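import Pool.Agent.H94.AO.QStmts
import Pool.Agent.H31.CC.FUN

/-!
Modules QFN and RGX.
-/

set_option linter.unusedVariables false
set_option linter.unusedSectionVars false
set_option synthInstance.maxSize 100000

namespace AO

open SW

theorem qfn (hdist : DIQStmt) : QFNStmt := by
  intro M _ _ _ w l F G hR hQF hG _ v A h hv hh hA
  have hP : F.P = QP w l := hQF.P
  have ff := semF F
  have ef := embF hG
  have tf := traF hG
  have hf : ∀ z, E z (gr (emb F G v) h) ↔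
      ∃ y, E y (emb F G v) ∧ z = opair y (h y) := fun z => mem_gr' hh
  obtain ⟨f', hf'⟩ : ∃ f', mk F G f' = gr (emb F G v) h :=
    ⟨_, Quot.out_eq _⟩
  -- the forced statement
  have hQ : CC.fun_Q (Ext F G)
      (fun i => mk F G ((![chk F v, chk F A, f'] : Fin 3 → M) i)) := by
    intro i hi
    have hi' : E i (emb F G v) := hi
    obtain ⟨i0, hi0, rfl⟩ := ef.trans _ _ hi'
    refine ⟨h (emb F G i0), hA i0 hi0, ?_⟩
    show PairIn (emb F G i0) (h (emb F G i0)) (mk F G f')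
    rw [hf', pairIn_iff, hf]
    exact ⟨_, hi', rfl⟩
  obtain ⟨p, hp, hpF⟩ := (ff.truth CC.fun_Q G hG _).1 hQ
  have hpP : E p F.P := hG.sub p hp
  have hD : Cl3 (fun r j y : M => E r F.P ∧
      FS F QPr r ![chk F j, chk F y, f']) := by
    have h1 := ff.df QPr
    have h2 : Cl3 (fun r j y : M => FS F QPr r ![chk F j, chk F y, f']) := by
      have h3 : Df (fun w : Fin 4 → M => FS F QPr (w 0) ![w 1, w 2, w 3]) :=
        h1.congr fun w => by
          have : (![w 1, w 2, w 3] : Fin 3 → M) = fun i => w i.succ := by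
            funext i; fin_cases i <;> rfl
          rw [this]
      exact h3.comp4 (R := fun a b c d => FS F QPr a ![b, c, d])
        (inferInstance : DfT (fun w : Fin 3 → M => w 0))
        (inferInstance : DfT (fun w : Fin 3 → M => chk F (w 1)))
        (inferInstance : DfT (fun w : Fin 3 → M => chk F (w 2)))
        (inferInstance : DfT (fun w : Fin 3 → M => f'))
    infer_instance
  obtain ⟨D, hDdef⟩ : ∃ D : M → M → M → Prop, D = fun r j y : M => E r F.P ∧
      FS F QPr r ![chk F j, chk F y, f'] := ⟨_, rfl⟩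
  have hD' : Cl3 D := by rw [hDdef]; exact hD
  have hmono : ∀ r r' j y, D r j y → E r' (QP w l) → QL r' r → D r' j y := by
    intro r r' j y h1 h2 h3
    rw [hDdef] at h1 ⊢
    exact ⟨by rw [hP]; exact h2, CC.fun_mono h1.2 h1.1 ((hQF.le _ _).2 h3)⟩
  have hdense : ∀ r j, E r (QP w l) → QL r p → E j v →
      ∃ r' y, E r' (QP w l) ∧ QL r' r ∧ E y A ∧ D r' j y := by
    intro r j hr hrp hj
    obtain ⟨G', hG', hrG'⟩ := ff.ex r (by rw [hP]; exact hr)
    have ef' := embF hG'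
    have hpG' : G' p := hG'.up r p hrG' hpP ((hQF.le _ _).2 hrp)
    obtain ⟨y, hy, hy'⟩ := hpF G' hG' hpG' (emb F G' j) ((ef'.mem j v).2 hj)
    obtain ⟨y0, hy0, rfl⟩ := ef'.trans _ _ (hy : E y (emb F G' A))
    obtain ⟨s, hs, hsF⟩ := (ff.truth QPr G' hG' ![chk F j, chk F y0, f']).1 hy'
    obtain ⟨t, ht, htr, hts⟩ := hG'.dir r s hrG' hs
    refine ⟨t, y0, hP ▸ hG'.sub t ht, (hQF.le _ _).1 htr, hy0, ?_⟩
    rw [hDdef]
    exact ⟨hG'.sub t ht, CC.fun_mono hsF (hG'.sub s hs) hts⟩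
  obtain ⟨q, hq, hqp, g, hg⟩ := (genF hG).meetB (fun q : M => ∃ g : M, ∀ j : M, E j v →
      E (app g j) A ∧ D q j (app g j)) inferInstance p hp (fun p' hp' hp'p => by
    obtain ⟨q, g, h1, h2, h3⟩ := hdist M w l p' v A D hR hD' (hP ▸ hp') hv hmono
      (fun r j hr hrp hj => hdense r j hr (QL_trans hrp ((hQF.le _ _).1 hp'p)) hj)
    exact ⟨q, by rw [hP]; exact h1, (hQF.le _ _).2 h2, g, h3⟩)
  have hval : ∀ i, E i v → h (emb F G i) = emb F G (app g i) := by
    intro i hi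
    have h1 := (hg i hi).2
    rw [hDdef] at h1
    have h2 : PairIn (emb F G i) (emb F G (app g i)) (mk F G f') :=
      h1.2 G hG hq
    rw [hf', pairIn_iff, hf] at h2
    obtain ⟨y, hy, e⟩ := h2
    rw [opair_inj] at e
    rw [e.2, e.1]
  refine ⟨g, fun i hi => ⟨(hg i hi).1, hval i hi⟩, ext fun z => ?_⟩
  rw [hf]
  constructor
  · rintro ⟨y, hy, rfl⟩
    obtain ⟨i, hi, rfl⟩ := ef.trans _ _ hy
    rw [hval i hi, ← tf.opair, ef.mem, opair_mem_gr inferInstance]
    exact ⟨hi, rfl⟩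
  · intro hz
    obtain ⟨z0, hz0, rfl⟩ := ef.trans _ _ hz
    obtain ⟨i, hi, rfl⟩ := (mem_gr' inferInstance).1 hz0
    refine ⟨emb F G i, (ef.mem i v).2 hi, ?_⟩
    rw [tf.opair, hval i hi]

theorem rgx (h1 : QFNStmt) (h2 : PRXStmt) (h3 : ALXStmt) (h4 : ALFStmt) : RGXStmt := by
  intro M _ _ _ w l F G hR hQF hG _
  have ef := embF hG
  have tf := traF hG
  refine ⟨tf.ord l hR.ord, (h2 M w l F G hR hQF hG).2.2, (ef.mem _ _).2 hR.wl, ?_, ?_, ?_⟩
  · intro a ha
    obtain ⟨a0, ha0, rfl⟩ := ef.trans _ _ ha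
    rw [← tf.suc, ef.mem]
    exact hR.suc a0 ha0
  · intro k v hv
    obtain ⟨u, hu⟩ := (h4 M).ex k
    have hu' := h3 M w l F G hR hQF hG k u hu
    rw [(h4 (Ext F G)).uniq k v _ hv hu', ef.mem]
    exact hR.alf k u hu
  · intro b f hb hf
    obtain ⟨b0, hb0, rfl⟩ := ef.trans _ _ hb
    obtain ⟨g, hg, -⟩ := h1 M w l F G hR hQF hG b0 l (fun x => app f x) hb0 inferInstance
      (fun i hi => hf _ ((ef.mem i b0).2 hi))
    obtain ⟨c, hc, hc'⟩ := hR.reg b0 g hb0 (fun x hx => (hg x hx).1)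
    refine ⟨emb F G c, (ef.mem _ _).2 hc, fun x hx => ?_⟩
    obtain ⟨x0, hx0, rfl⟩ := ef.trans _ _ hx
    rw [(hg x0 hx0).2, ef.mem]
    exact hc' x0 hx0

end AO
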