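import Pool.Agent.H94.AO.QStmts

/-!
Modules RGB and QFX.
-/

set_option linter.unusedVariables false
set_option linter.unusedSectionVars false
set_option synthInstance.maxSize 100000

namespace AO

open SW

theorem rgb_bnd {M : Type} [SetStr M] [ZF M] {w l : M} (h : Rg w l) (b : M) (f : M → M)
    (hf : Fn1 f) (hb : E b l) (hfl : ∀ x, E x b → E (f x) l) :
    ∃ c, E c l ∧ ∀ x, E x b → E (f x) c := by
  obtain ⟨c, h1, h2⟩ := h.reg b (gr b f) hb (fun x hx => by rw [app_gr hf hx]; exact hfl x hx)
  exact ⟨c, h1, fun x hx => by have := h2 x hx; rwa [app_gr hf hx] at this⟩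

theorem rgb_emp {M : Type} [SetStr M] [ZF M] {w l : M} (h : Rg w l) : E (emp : M) l :=
  emp_mem_ord h.ord (fun e => by
    have := h.wl
    rw [e] at this
    exact not_mem_emp _ this)

theorem rgb_one {M : Type} [SetStr M] [ZF M] {X y : M} (C : M → Prop) (hC : Cl C) (hy : E y X)
    (h1 : C y) (h : ∀ z, E z X → C z → z = y) : sUn (sep X C) = y := by
  refine ext fun z => ?_
  rw [mem_sUn]
  constructor
  · rintro ⟨u, hu, hz⟩
    have hu' := mem_sep.1 hu
    rw [← h u hu'.1 hu'.2]
    exact hz
  · intro hz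
    exact ⟨y, mem_sep.2 ⟨hy, h1⟩, hz⟩

theorem rgb_none {M : Type} [SetStr M] [ZF M] {X : M} (C : M → Prop) (hC : Cl C)
    (h : ∀ z, E z X → ¬ C z) : sUn (sep X C) = (emp : M) := by
  refine ext fun z => ?_
  rw [mem_sUn]
  constructor
  · rintro ⟨u, hu, hz⟩
    have hu' := mem_sep.1 hu
    exact absurd hu'.2 (h u hu'.1)
  · intro hz
    exact absurd hz (not_mem_emp z)

theorem rgb (h1 : CBTStmt) : RGBStmt := by
  intro M _ _ w l h
  have hom : E (om : M) l := h.alf 0 om rfl
  refine ⟨fun a ha => h.ord.mem ha, fun a b ha hb => h.ord.trans hb ha, rgb_emp h, hom, ?_,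
    rgb_bnd h, ?_, ?_, ?_⟩
  · intro a b ha hb
    rcases (h.ord.mem ha).tri (h.ord.mem hb) with hab | rfl | hab
    · have : bun a b = b := ext fun z => by
        rw [mem_bun]
        exact ⟨fun hz => hz.elim (fun hz => (h.ord.mem hb).trans hab hz) id, Or.inr⟩
      rw [this]; exact hb
    · have : bun a a = a := ext fun z => by
        rw [mem_bun]
        exact ⟨fun hz => hz.elim id id, Or.inl⟩
      rw [this]; exact ha
    · have : bun a b = a := ext fun z => by
        rw [mem_bun]
        exact ⟨fun hz => hz.elim id (fun hz => (h.ord.mem ha).trans hab hz), Or.inl⟩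
      rw [this]; exact ha
  · intro b f hf hb hfl
    obtain ⟨c, hc, hfc⟩ := rgb_bnd h b f hf hb hfl
    have ho : Ord (sUn (img b f)) := Ord_sUn fun y hy => by
      obtain ⟨x, hx, rfl⟩ := (mem_img' hf).1 hy
      exact h.ord.mem (hfl x hx)
    have hs : Sub (sUn (img b f)) c := by
      intro z hz
      obtain ⟨y, hy, hzy⟩ := mem_sUn.1 hz
      obtain ⟨x, hx, rfl⟩ := (mem_img' hf).1 hy
      exact (h.ord.mem hc).trans (hfc x hx) hzy
    rcases (ho.sub_iff (h.ord.mem hc)).1 hs with h2 | h2
    · exact h.ord.trans hc h2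
    · rw [h2]; exact hc
  · intro X hX hcb
    obtain ⟨f, hf1, hf2⟩ := hcb
    have hg : Fn1 (fun n : M => sUn (sep X (fun y => E (opair y n) f))) := by infer_instance
    obtain ⟨c, hc, hc'⟩ := rgb_bnd h om _ hg hom (fun n hn => by
      by_cases hex : ∃ y, E y X ∧ E (opair y n) f
      · obtain ⟨y, hy, hyn⟩ := hex
        have e : sUn (sep X (fun y => E (opair y n) f)) = y :=
          rgb_one _ inferInstance hy hyn (fun z hz hz' => hf2 z y n hz hy hn hz' hyn)
        rw [e]; exact hX y hy
      · have e : sUn (sep X (fun y => E (opair y n) f)) = emp :=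
          rgb_none _ inferInstance (fun z hz hz' => hex ⟨z, hz, hz'⟩)
        rw [e]; exact rgb_emp h)
    refine ⟨c, hc, fun y hy => ?_⟩
    obtain ⟨n, hn, hyn⟩ := hf1 y hy
    have e : sUn (sep X (fun y => E (opair y n) f)) = y :=
      rgb_one _ inferInstance hy hyn (fun z hz hz' => hf2 z y n hz hy hn hz' hyn)
    have := hc' n hn
    rwa [e] at this
  · rintro k X hX ⟨v, hv, f, hf⟩
    have hg : Fn1 (fun x : M => sUn (sep (sing (app f x)) (fun y => E y X))) := by infer_instance
    obtain ⟨c, hc, hc'⟩ := rgb_bnd h v _ hg (h.alf k v hv) (fun x hx => by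
      by_cases hex : E (app f x) X
      · have e : sUn (sep (sing (app f x)) (fun y => E y X)) = app f x :=
          rgb_one _ inferInstance (mem_sing.2 rfl) hex (fun z hz hz' => mem_sing.1 hz)
        rw [e]; exact hX _ hex
      · have e : sUn (sep (sing (app f x)) (fun y => E y X)) = emp :=
          rgb_none _ inferInstance (fun z hz hz' => hex (mem_sing.1 hz ▸ hz'))
        rw [e]; exact rgb_emp h)
    refine ⟨c, hc, fun y hy => ?_⟩
    obtain ⟨x, hx, rfl⟩ := hf y hy
    have e : sUn (sep (sing (app f x)) (fun y => E y X)) = app f x :=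
      rgb_one _ inferInstance (mem_sing.2 rfl) hy (fun z hz hz' => mem_sing.1 hz)
    have := hc' x hx
    rwa [e] at this

theorem qfx : QFXStmt := by
  intro M _ _ w l h
  refine ⟨{ P := QP w l, le := QL, one := opair emp emp, le_df := QL_df,
            one_mem := (mem_QP' h.ord).2 ⟨rgb_emp h, TC_emp w⟩
            refl := fun p hp => QL_refl h.ord hp
            trans := fun p q r _ _ _ h1 h2 => QL_trans h1 h2
            le_one := fun p _ => QL_one p }, rfl, fun p q => Iff.rfl, rfl⟩

end AO
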